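import Pool.Agent.W783.Perc.Stmts

set_option autoImplicit false

open Filter Topology

namespace Pool.Agent.W578.PC

theorem tend_aux (g a : ℝ) (hg : 0 < g) (ha : 0 < a) :
    Tendsto (fun N : ℕ => (N : ℝ) * Real.exp (-a * (N : ℝ) ^ g)) atTop (𝓝 0) := by
  have h1 := tendsto_rpow_mul_exp_neg_mul_atTop_nhds_zero (1 / g) a ha
  have h2 : Tendsto (fun N : ℕ => (N : ℝ) ^ g) atTop atTop :=
    (tendsto_rpow_atTop hg).comp tendsto_natCast_atTop_atTop
  have h3 := h1.comp h2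
  refine h3.congr ?_
  intro N
  simp only [Function.comp]
  rw [← Real.rpow_mul (Nat.cast_nonneg N), mul_one_div_cancel hg.ne', Real.rpow_one]

theorem s_lim : Pool.Agent.W783.PC.S_lim := by
  intro s c0 κ β η hs1 hs2 hc0 hc1 hκ hβ hη
  set g : ℝ := (2 - s) / (2 * s) with hg
  have hg0 : 0 < g := by
    rw [hg]; apply div_pos <;> linarith
  set h : ℝ := (2 - s) / 2 with hh
  have hh0 : 0 < h := by rw [hh]; linarith
  set c : ℝ := β * ((20 : ℝ) ^ (-s) * κ ^ 2) with hc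
  have hcpos : 0 < c := by positivity
  have t1 := (tend_aux g c0 hg0 hc0).const_mul (6 * Real.exp c0)
  have t2 := (tend_aux h c hh0 hcpos).const_mul 6
  have t3 := t1.add t2
  rw [mul_zero, mul_zero, add_zero] at t3
  have t4 := (t3.eventually (ge_mem_nhds hη)).and (eventually_ge_atTop 1)
  obtain ⟨N0, hN0⟩ := eventually_atTop.mp t4
  refine ⟨N0, fun N hN => ?_⟩
  obtain ⟨hb, hN1⟩ := hN0 N hN
  refine le_trans ?_ hb
  have hNr : (1 : ℝ) ≤ N := by exact_mod_cast hN1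
  have hNpos : (0 : ℝ) < N := by linarith
  -- M
  have hM : (Pool.Agent.W783.PC.Mof s N : ℝ) ≤ N := by
    unfold Pool.Agent.W783.PC.Mof
    refine (Nat.floor_le (Real.rpow_nonneg hNpos.le _)).trans ?_
    calc (N : ℝ) ^ (s - 1) ≤ (N : ℝ) ^ (1 : ℝ) :=
          Real.rpow_le_rpow_of_exponent_le hNr (by linarith)
      _ = N := Real.rpow_one _
  -- J
  have hJ1 : (Pool.Agent.W783.PC.Jof s N : ℝ) ≤ (N : ℝ) ^ g := by
    unfold Pool.Agent.W783.PC.Jof
    exact Nat.floor_le (Real.rpow_nonneg hNpos.le _)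
  have hJ2 : (N : ℝ) ^ g - 1 ≤ Pool.Agent.W783.PC.Jof s N := by
    unfold Pool.Agent.W783.PC.Jof
    have := Nat.lt_floor_add_one ((N : ℝ) ^ ((2 - s) / (2 * s)))
    rw [← hg] at this ⊢
    linarith
  have hJ3 : 1 ≤ Pool.Agent.W783.PC.Jof s N := by
    unfold Pool.Agent.W783.PC.Jof
    rw [Nat.one_le_floor_iff]
    exact Real.one_le_rpow hNr hg0.le
  generalize Pool.Agent.W783.PC.Mof s N = M at hM ⊢
  generalize Pool.Agent.W783.PC.Jof s N = J at hJ1 hJ2 hJ3 ⊢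
  have hJr : (1 : ℝ) ≤ J := by exact_mod_cast hJ3
  -- first exponential
  have e1 : (1 - c0) ^ J ≤ Real.exp c0 * Real.exp (-c0 * (N : ℝ) ^ g) := by
    have : (1 - c0) ^ J ≤ (Real.exp (-c0)) ^ J := by
      apply pow_le_pow_left₀ (by linarith)
      have := Real.add_one_le_exp (-c0)
      linarith
    refine this.trans ?_
    rw [← Real.exp_nat_mul, ← Real.exp_add]
    apply Real.exp_le_exp.mpr
    nlinarith
  -- second exponential
  have e2 : Real.exp (-((β * (20 * (N : ℝ) * J) ^ (-s)) * (κ * N) ^ 2))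
      ≤ Real.exp (-c * (N : ℝ) ^ h) := by
    apply Real.exp_le_exp.mpr
    have k1 : (20 * (N : ℝ) * (N : ℝ) ^ g) ^ (-s) ≤ (20 * (N : ℝ) * J) ^ (-s) := by
      apply Real.rpow_le_rpow_of_nonpos (by positivity) _ (by linarith)
      exact mul_le_mul_of_nonneg_left hJ1 (by positivity)
    have k2 : (20 * (N : ℝ) * (N : ℝ) ^ g) ^ (-s) * (κ * N) ^ 2
        = (20 : ℝ) ^ (-s) * κ ^ 2 * (N : ℝ) ^ h := by
      rw [Real.mul_rpow (by positivity) (by positivity), Real.mul_rpow (by positivity) hNpos.le,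
        ← Real.rpow_mul hNpos.le]
      have : (κ * (N : ℝ)) ^ 2 = κ ^ 2 * (N : ℝ) ^ (2 : ℝ) := by
        rw [Real.rpow_two]; ring
      rw [this]
      have k3 : (N : ℝ) ^ (-s) * (N : ℝ) ^ (g * -s) * (N : ℝ) ^ (2 : ℝ) = (N : ℝ) ^ h := by
        rw [← Real.rpow_add hNpos, ← Real.rpow_add hNpos]
        congr 1
        rw [hg, hh]
        field_simp
        ring
      rw [← k3]; ring
    have k4 : c * (N : ℝ) ^ h = β * ((20 * (N : ℝ) * (N : ℝ) ^ g) ^ (-s) * (κ * N) ^ 2) := by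
      rw [k2, hc]; ring
    have k5 : β * ((20 * (N : ℝ) * (N : ℝ) ^ g) ^ (-s) * (κ * N) ^ 2)
        ≤ β * ((20 * (N : ℝ) * J) ^ (-s) * (κ * N) ^ 2) := by
      apply mul_le_mul_of_nonneg_left _ hβ.le
      exact mul_le_mul_of_nonneg_right k1 (by positivity)
    nlinarith
  have p1 : 0 ≤ (1 - c0) ^ J := pow_nonneg (by linarith) _
  have p2 : 0 ≤ Real.exp (-((β * (20 * (N : ℝ) * J) ^ (-s)) * (κ * N) ^ 2)) := (Real.exp_pos _).le
  calc (2 * (M : ℝ) + 1) * (2 * (1 - c0) ^ J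
        + 2 * Real.exp (-((β * (20 * (N : ℝ) * J) ^ (-s)) * (κ * N) ^ 2)))
      ≤ (3 * (N : ℝ)) * (2 * (Real.exp c0 * Real.exp (-c0 * (N : ℝ) ^ g))
        + 2 * Real.exp (-c * (N : ℝ) ^ h)) := by
        apply mul_le_mul (by linarith) (by linarith) (by linarith) (by linarith)
    _ = 6 * Real.exp c0 * ((N : ℝ) * Real.exp (-c0 * (N : ℝ) ^ g))
        + 6 * ((N : ℝ) * Real.exp (-c * (N : ℝ) ^ h)) := by ring

end Pool.Agent.W578.PC
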